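import Mathlib
import Pool.Agent.H35.APNProof

set_option autoImplicit false

namespace Pool.Agent.Results.MP_b298ef_co.Parity

open Pool.Agent.H35.APN

/-- Exclude multiplicities of the graph of a plateaued APN function are odd. -/
theorem result (n : ℕ) (hn : 3 ≤ n) (F : V n → V n) (h1 : Plateaued F) (h2 : IsAPN F)
    (p : V n × V n) (hp : p ∉ graph F) : Odd (mult F p) :=
  main hn h1 h2 p.1 p.2 fun h => hp (Finset.mem_image.2 ⟨p.1, Finset.mem_univ _, by rw [← h]⟩)

end Pool.Agent.Results.MP_b298ef_co.Parity
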